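import Pool.Agent.Lib.MP_e6fef2_lc.V.Iface
import Pool.Agent.Lib.MP_c5d73d_lc.F.Assembly
import Pool.Agent.Lib.MP_c5d73d_lc.F.H8.Zb1
import Pool.Agent.Lib.MP_c5d73d_lc.F.H64.Zf

/-!
# Part V: assembly
-/

universe u

open Cardinal

namespace Pool.Agent.Lib.MP_e6fef2_lc

open Pool.Agent.Lib.MP_100a6c_lc
open Pool.Agent.Lib.MP_c5d73d_lc.F (ZFC zfc_of)
open Pool.Agent.Lib.MP_c5d73d_lc

/-- ZFC holds in every Boolean-valued universe. -/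
theorem zfc_top (B : Type u) [CompleteBooleanAlgebra B] : ZFC (VB B) = ⊤ :=
  zfc_of F.H8.zb1 F.H8.zb2 F.H64.zb3 F.H64.zb4 F.H64.zsep F.H64.zrep B

/-- The final theorem from the data produced by the iteration. -/
theorem final_of (hP : VPfaStatement.{u}) (hM : VMmStatement.{u}) (hL : VLosStatement.{u})
    {B : Type u} [CompleteBooleanAlgebra B] {X : Type u} [PartialOrder X] {v : X → B}
    (h : Model B X v) :
    ((⊥ : B) ≠ ⊤ ∧ ZFC (VB B) = ⊤ ∧ PFA1 (VB B) = ⊤ ∧ MM1 (VB B) = ⊥) ∧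
    ∃ (M : Type (u + 1)) (E : M → M → Prop),
      ZFC (⟨E, Eq⟩ : Str Prop M) ∧ PFA1 (⟨E, Eq⟩ : Str Prop M) ∧ ¬ MM1 (⟨E, Eq⟩ : Str Prop M) := by
  have h1 := zfc_top B
  have h2 := hP B h.ccv h.pfa
  have h3 := hM B X v h.ccv h.nonempty h.size h.ssp h.nfa
  exact ⟨⟨h.nontriv, h1, h2, h3⟩, hL B h.nontriv h1 h2 h3⟩

end Pool.Agent.Lib.MP_e6fef2_lc
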