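import Pool.Agent.Lib.MP_e6fef2_lc.Base

/-!
# Part V: the typed notions (target of the iteration)

`B` is a complete Boolean algebra, `W` the type of the ordinals below `ω₁`.  A name of a poset on
`ω₁` is a `B`-valued preorder `le : W → W → B` (`le p q` is the Boolean value of `p ≤ q`); a name of
a subset of `ω₁` is a function `W → B`.
-/

universe u

open Cardinal

namespace Pool.Agent.Lib.MP_e6fef2_lc

section

variable (B : Type u) [CompleteBooleanAlgebra B]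

/-- Countable sets of `V^B` are covered by countable sets of the ground universe. -/
def CCV : Prop := ∀ (X : Type u) (f : ℕ → X → B), (∀ n, ⨆ x, f n x = ⊤) →
  ⨆ Y : {Y : Set X // Y.Countable}, ⨅ n, ⨆ x : Y.1, f n x = ⊤

/-- Names of subsets of `ω₁`, and elements of `ω₁`. -/
abbrev XX : Type u := (W.{u} → B) ⊕ W.{u}

end

section

variable {B : Type u} [CompleteBooleanAlgebra B]

/-- `le` is a `B`-valued preorder. -/
structure TPre (le : W.{u} → W.{u} → B) : Prop where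
  refl : ∀ x, le x x = ⊤
  trans : ∀ x y z, le x y ⊓ le y z ≤ le x z

/-- `p` and `q` are compatible. -/
def tcomp (le : W.{u} → W.{u} → B) (p q : W.{u}) : B := ⨆ s, le s p ⊓ le s q

/-- `A` is dense. -/
def tdense (le : W.{u} → W.{u} → B) (A : W.{u} → B) : B := ⨅ p, ⨆ q, A q ⊓ le q p

/-- `q` is generic for `N`: for every `A ∈ N`, if `A` is dense then `A ∩ N` is predense below
`q`. -/
def tgen (le : W.{u} → W.{u} → B) (N : Set (XX B)) (q : W.{u}) : B :=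
  ⨅ A : W.{u} → B, ⨅ _ : Sum.inl A ∈ N,
    tdense le A ⇨ ⨅ t, le t q ⇨ ⨆ s, ⨆ _ : Sum.inr s ∈ N, A s ⊓ tcomp le s t

/-- `le` is proper with respect to countable sets of the ground universe: there are names
`(s, k) ↦ φ s k` of functions from finite sequences of elements of `XX B` (and `k : ℕ`) to `XX B`
such that for every countable `N` and every `b` which forces `N` to be closed under these
functions, `b` forces every `p ∈ N` to have an extension which is generic for `N`. -/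
def TProper (le : W.{u} → W.{u} → B) : Prop :=
  ∃ φ : List (XX B) → ℕ → XX B → B, (∀ s k, ⨆ x, φ s k x = ⊤) ∧
    ∀ N : Set (XX B), N.Countable → ∀ b : B,
      (∀ s : List (XX B), (∀ x ∈ s, x ∈ N) → ∀ k, b ≤ ⨆ x, ⨆ _ : x ∈ N, φ s k x) →
        ∀ p, Sum.inr p ∈ N → b ≤ ⨆ q, le q p ⊓ tgen le N q

/-- Typed forcing axiom. -/
def TFA (le : W.{u} → W.{u} → B) : Prop :=
  ∀ D : W.{u} → W.{u} → B, (∀ i, tdense le (D i) = ⊤) →
    ∃ G : W.{u} → B, (∀ x y, G x ⊓ le x y ≤ G y) ∧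
      (∀ x y, G x ⊓ G y ≤ ⨆ z, G z ⊓ le z x ⊓ le z y) ∧ ∀ i, ⨆ x, G x ⊓ D i x = ⊤

variable (B) in
/-- Typed PFA(ω₁). -/
def TPFA : Prop := ∀ le : W.{u} → W.{u} → B, TPre le → TProper le → TFA le

/-! ## The poset which violates MM(ω₁) -/

section

variable {X : Type u} [PartialOrder X]

/-- A name of a subset `{x : v x}` of the ground poset `X` of size at most `ℵ₁`. -/
def TSize (v : X → B) : Prop :=
  ∃ e : W.{u} → X → B, (∀ ξ x y, x ≠ y → e ξ x ⊓ e ξ y = ⊥) ∧ ∀ x, v x ≤ ⨆ ξ, e ξ x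

/-- `C` is closed and unbounded in `ω₁`. -/
def tclub (C : W.{u} → B) : B :=
  (⨅ a, ⨆ b, ⨆ _ : a < b, C b) ⊓
    ⨅ d : W.{u}, ⨅ _ : ∃ a, a < d, (⨅ a, ⨅ _ : a < d, ⨆ b, ⨆ _ : a < b ∧ b < d, C b) ⇨ C d

/-- `T` is stationary. -/
def tstat (T : W.{u} → B) : B := ⨅ C : W.{u} → B, tclub C ⇨ ⨆ a, T a ⊓ C a

/-- `{x : v x}` preserves stationary subsets of `ω₁`: `D ξ r β` is the value of `r` forces the
`ξ`-th value of a function to be `β`. -/
def TSSP (v : X → B) : Prop :=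
  ∀ (Γ : B) (p : X) (T : W.{u} → B) (D : W.{u} → X → W.{u} → B), Γ ≤ v p → Γ ≤ tstat T →
    (∀ ξ, ∀ q ≤ p, Γ ⊓ v q ≤ ⨆ r, ⨆ _ : r ≤ q, ⨆ β, v r ⊓ D ξ r β) →
      Γ ≤ ⨆ q, ⨆ _ : q ≤ p, ⨆ δ, v q ⊓ T δ ⊓ ⨅ ξ, ⨅ _ : ξ < δ, ⨅ t, ⨅ _ : t ≤ q,
        v t ⇨ ⨆ s, ⨆ _ : s ≤ t, v s ⊓ ⨆ r, ⨆ _ : s ≤ r, v r ⊓ ⨆ β, ⨆ _ : β < δ, D ξ r β

/-- The forcing axiom fails for `{x : v x}`. -/
def TNFA (v : X → B) : Prop :=
  ∃ D : W.{u} → X → B, (∀ ξ p, v p ≤ ⨆ q, ⨆ _ : q ≤ p, v q ⊓ D ξ q) ∧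
    ∀ G : X → B, (∀ x, G x ≤ v x) → (∀ x y, x ≤ y → G x ⊓ v y ≤ G y) →
      (∀ x y, G x ⊓ G y ≤ ⨆ z, ⨆ _ : z ≤ x ∧ z ≤ y, G z) → ⨅ ξ, ⨆ x, G x ⊓ D ξ x = ⊥

end

end

/-- The data produced by the iteration. -/
structure Model (B : Type u) [CompleteBooleanAlgebra B] (X : Type u) [PartialOrder X]
    (v : X → B) : Prop where
  nontriv : (⊥ : B) ≠ ⊤
  ccv : CCV B
  pfa : TPFA B
  nonempty : ⨆ x, v x = ⊤
  size : TSize v
  ssp : TSSP v
  nfa : TNFA v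

end Pool.Agent.Lib.MP_e6fef2_lc
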