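import Pool.Agent.Lib.MP_e6fef2_lc.V.Defs
import Pool.Agent.Lib.MP_e6fef2_lc.V.TDefs
import Pool.Agent.Lib.MP_100a6c_lc.H36.Omega
import Pool.Agent.Lib.MP_100a6c_lc.Base5

/-!
# Part V: statements of the modules
-/

universe u

open Cardinal

open scoped symmDiff

namespace Pool.Agent.Lib.MP_e6fef2_lc

open Pool.Agent.Lib.MP_100a6c_lc
open Pool.Agent.Lib.MP_c5d73d_lc.F (isOm isPow isPreo comp isDense isFilt ZFC)
open BName
open H36 (om)

section

variable {B : Type u} [CompleteBooleanAlgebra B]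

/-- The set `ω₁` of the ground universe. -/
noncomputable def om1 : ZFSet.{u} := (Cardinal.aleph.{u} 1).ord.toZFSet

/-- The name of the ordinal `ξ < ω₁`. -/
noncomputable def wn (ξ : W.{u}) : BName B := check (Ordinal.ToType.mk.symm ξ).1.toZFSet

end

/-- V_OM1: `ω₁` of the ground universe is `ω₁` of `V^B`. -/
def VOm1Statement : Prop := ∀ (B : Type u) [CompleteBooleanAlgebra B], CCV B →
  (VB B).isSucc (check om1) (check om) = ⊤ ∧
  (∀ o : BName B, (VB B).isSucc o (check om) ≤ beq o (check om1)) ∧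
  (∀ y : BName B, bmem y (check om1) = ⨆ ξ : W.{u}, beq y (wn ξ)) ∧
  (∀ ξ η : W.{u}, bmem (wn ξ : BName B) (wn η) = ⨆ _ : ξ < η, ⊤) ∧
  (∀ ξ η : W.{u}, beq (wn ξ : BName B) (wn η) = ⨆ _ : ξ = η, ⊤)

/-- V_ENUM: a nonempty set of `V^B` of size at most `ℵ₁` is enumerated by `W`. -/
def VEnumStatement : Prop := ∀ (B : Type u) [CompleteBooleanAlgebra B] (Γ : B) (P : BName B),
  Γ ≤ (⨆ p, bmem p P) → Γ ≤ (VB B).leCard P (check om1) → ∃ p : W.{u} → BName B,
    (∀ ξ, Γ ≤ bmem (p ξ) P) ∧ ∀ x, Γ ⊓ bmem x P ≤ ⨆ ξ, beq x (p ξ)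

/-- V_PROP: from properness in `V^B` to typed properness. -/
def VPropStatement : Prop := ∀ (B : Type u) [CompleteBooleanAlgebra B] (Γ : B) (P r : BName B)
  (p : W.{u} → BName B), (∀ ξ, Γ ≤ bmem (p ξ) P) → (∀ x, Γ ⊓ bmem x P ≤ ⨆ ξ, beq x (p ξ)) →
    Γ ≤ isPreo (VB B) P r → Γ ≤ isProper (VB B) P r →
      TProper fun ξ η => (VB B).rel r (p ξ) (p η) ⊔ Γᶜ

/-- V_PFA: `PFA(ω₁)` in `V^B`. -/
def VPfaStatement : Prop := ∀ (B : Type u) [CompleteBooleanAlgebra B], CCV B → TPFA B →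
  PFA1 (VB B) = ⊤

section

variable {B : Type u} [CompleteBooleanAlgebra B] {X : Type u}

/-- An injective coding of `X` by sets. -/
noncomputable def code (x : X) : ZFSet.{u} :=
  (Ordinal.typein (WellOrderingRel (α := X)) x).toZFSet

/-- The name of the poset `{x : v x}`. -/
noncomputable def Pn (v : X → B) : BName B := mk X (fun x => check (code x)) v

variable (B X) in
/-- The name of the order of `X`. -/
noncomputable def rn [PartialOrder X] : BName B :=
  relFam (ι := {p : X × X // p.1 ≤ p.2}) (fun p => check (code p.1.1)) (fun p => check (code p.1.2))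
    fun _ => ⊤

end

/-- V_POS: computation of the poset. -/
def VPosStatement : Prop := ∀ (B : Type u) [CompleteBooleanAlgebra B] (X : Type u) [PartialOrder X]
  (v : X → B),
  (∀ x y : X, beq (check (code x) : BName B) (check (code y)) = ⨆ _ : x = y, ⊤) ∧
  (∀ y : BName B, bmem y (Pn v) = ⨆ x, v x ⊓ beq y (check (code x))) ∧
  (∀ x, bmem (check (code x)) (Pn v) = v x) ∧
  (∀ x y : X, (VB B).rel (rn B X) (check (code x)) (check (code y)) = ⨆ _ : x ≤ y, ⊤) ∧
  (⨆ x, v x = ⊤ → isPO (VB B) (Pn v) (rn B X) = ⊤)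

/-- V_SIZE. -/
def VSizeStatement : Prop := ∀ (B : Type u) [CompleteBooleanAlgebra B] (X : Type u)
  (v : X → B), TSize v → (VB B).leCard (Pn v) (check om1) = ⊤

/-- V_SSP: preservation of stationary sets in `V^B`. -/
def VSspStatement : Prop := ∀ (B : Type u) [CompleteBooleanAlgebra B] (X : Type u) [PartialOrder X]
  (v : X → B), CCV B → TSSP v → isSSP (VB B) (check om1) (Pn v) (rn B X) = ⊤

/-- V_NFA: failure of the forcing axiom in `V^B`. -/
def VNfaStatement : Prop := ∀ (B : Type u) [CompleteBooleanAlgebra B] (X : Type u) [PartialOrder X]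
  (v : X → B), TNFA v → FA (VB B) (check om1) (Pn v) (rn B X) = ⊥

/-- V_MM: `MM(ω₁)` fails in `V^B`. -/
def VMmStatement : Prop := ∀ (B : Type u) [CompleteBooleanAlgebra B] (X : Type u) [PartialOrder X]
  (v : X → B), CCV B → ⨆ x, v x = ⊤ → TSize v → TSSP v → TNFA v → MM1 (VB B) = ⊥

/-- V_LOS: two-valued models. -/
def VLosStatement : Prop := ∀ (B : Type u) [CompleteBooleanAlgebra B], (⊥ : B) ≠ ⊤ →
  ZFC (VB B) = ⊤ → PFA1 (VB B) = ⊤ → MM1 (VB B) = ⊥ →
    ∃ (M : Type (u + 1)) (E : M → M → Prop),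
      ZFC (⟨E, Eq⟩ : Str Prop M) ∧ PFA1 (⟨E, Eq⟩ : Str Prop M) ∧ ¬ MM1 (⟨E, Eq⟩ : Str Prop M)

end Pool.Agent.Lib.MP_e6fef2_lc
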