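import Pool.Agent.Lib.MP_e6fef2_lc.V.Assembly
import Pool.Agent.Lib.MP_e6fef2_lc.V.H19.Mm
import Pool.Agent.Lib.MP_e6fef2_lc.V.H70.Pfa
import Pool.Agent.Lib.MP_e6fef2_lc.V.H7.Los
import Pool.Agent.Lib.MP_e6fef2_lc.V.H7.EnumW
import Pool.Agent.Lib.MP_e6fef2_lc.V.H21.Om1
import Pool.Agent.Lib.MP_e6fef2_lc.V.H25.Nfa
import Pool.Agent.Lib.MP_e6fef2_lc.V.H25.Pos
import Pool.Agent.Lib.MP_e6fef2_lc.V.H35.VSsp
import Pool.Agent.Lib.MP_e6fef2_lc.V.H99.VProp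

/-!
# Part V, complete: from the data of the iteration to the two forms of the final theorem
-/

universe u

open Cardinal

namespace Pool.Agent.Lib.MP_e6fef2_lc

open Pool.Agent.Lib.MP_100a6c_lc
open Pool.Agent.Lib.MP_c5d73d_lc.F (ZFC)

/-- `PFA(ω₁)` holds in `V^B` when it holds in the algebra. -/
theorem vpfa_full : VPfaStatement.{u} :=
  H70.v_pfa Pool.Agent.Lib.MP_c5d73d_lc.F.H36.reals H21.v_om1 H7.v_enum H99.v_prop

/-- `MM(ω₁)` fails in `V^B`. -/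
theorem vmm_full : VMmStatement.{u} :=
  H19.v_mm H21.v_om1 H25.v_pos H25.v_size (H35.v_ssp H25.v_pos) H25.v_nfa

/-- The Boolean-valued model and the two-valued model. -/
theorem final_model {B : Type u} [CompleteBooleanAlgebra B] {X : Type u} [PartialOrder X]
    {v : X → B} (h : Model B X v) :
    ((⊥ : B) ≠ ⊤ ∧ ZFC (VB B) = ⊤ ∧ PFA1 (VB B) = ⊤ ∧ MM1 (VB B) = ⊥) ∧
    ∃ (M : Type (u + 1)) (E : M → M → Prop),
      ZFC (⟨E, Eq⟩ : Str Prop M) ∧ PFA1 (⟨E, Eq⟩ : Str Prop M) ∧ ¬ MM1 (⟨E, Eq⟩ : Str Prop M) :=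
  final_of vpfa_full vmm_full H7.v_los h

end Pool.Agent.Lib.MP_e6fef2_lc
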