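import Pool.Agent.Lib.MP_c5d73d_lc.F.Defs

/-!
# PFA(ω₁) and MM(ω₁) in a universe

As in `Pool.Agent.Lib.MP_100a6c_lc.Defs` and `Pool.Agent.Lib.MP_c5d73d_lc.F.Defs`, all notions are
written once, for an arbitrary `Str B U`: a collection `U` with membership and equality relations
with values in a complete Boolean algebra `B`.  For `B = Prop` this is the usual meaning in the
structure `U`; for `VB B` it is the Boolean value of the notion in the Boolean-valued universe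
`V^B`.
-/

universe u v w

open scoped symmDiff

namespace Pool.Agent.Lib.MP_e6fef2_lc

open Pool.Agent.Lib.MP_100a6c_lc
open Pool.Agent.Lib.MP_c5d73d_lc.F (isOm isPow isPreo comp isDense isFilt)

variable {B : Type v} {U : Type w} [CompleteBooleanAlgebra B] (S : Str B U)

/-! ## Partial orders, forcing axioms -/

/-- `(P, r)` is a nonempty partially ordered set; `(p, q) ∈ r` is read `p ≤ q`. -/
def isPO (P r : U) : B :=
  isPreo S P r ⊓ ⨅ p, ⨅ q, S.mem p P ⊓ S.mem q P ⊓ S.rel r p q ⊓ S.rel r q p ⇨ S.eq p q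

/-- `FA_{ω₁}({(P, r)})` (`o = ω₁`): for every family `D` of at most `ℵ₁` dense subsets of `(P, r)`
some filter meets every element of `D`. -/
def FA (o P r : U) : B :=
  ⨅ D, (⨅ d, S.mem d D ⇨ isDense S P r d) ⊓ S.leCard D o ⇨
    ⨆ G, isFilt S P r G ⊓ ⨅ d, S.mem d D ⇨ ⨆ p, S.mem p G ⊓ S.mem p d

/-! ## Proper partial orders -/

/-- `q` is `(M, P)`-generic: for every dense subset `D` of `P` in `M`, the set `D ∩ M` is predense
below `q`. -/
def isGen (P r M q : U) : B :=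
  ⨅ D, S.mem D M ⊓ isDense S P r D ⇨
    ⨅ t, S.mem t P ⊓ S.rel r t q ⇨ ⨆ s, S.mem s D ⊓ S.mem s M ⊓ comp S P r s t

/-- `(P, r)` is proper: for some regular cardinal `θ` with `𝒫(P) ∈ H = H(θ)` there is a closed
unbounded set `C` of countable subsets of `H(θ)` such that for all `M ∈ C`, every `p ∈ P ∩ M` has an
`(M, P)`-generic extension `q ≤ p`. -/
def isProper (P r : U) : B :=
  ⨆ w, ⨆ θ, ⨆ H, ⨆ C, isOm S w ⊓ S.isReg θ ⊓ S.isH H θ ⊓ (⨆ Q, isPow S Q P ⊓ S.mem Q H) ⊓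
    S.isClub C H w ⊓
    ⨅ M, S.mem M C ⇨ ⨅ p, S.mem p P ⊓ S.mem p M ⇨ ⨆ q, S.mem q P ⊓ S.rel r q p ⊓ isGen S P r M q

/-! ## Partial orders preserving stationary subsets of `ω₁` -/

/-- `C` is a closed unbounded subset of the limit ordinal `o`. -/
def isClosedUnb (C o : U) : B :=
  S.sub C o ⊓ (⨅ a, S.mem a o ⇨ ⨆ b, S.mem b C ⊓ S.mem a b) ⊓
    ⨅ d, S.mem d o ⊓ (⨆ a, S.mem a d) ⊓
      (⨅ a, S.mem a d ⇨ ⨆ b, S.mem b C ⊓ S.mem b d ⊓ S.mem a b) ⇨ S.mem d C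

/-- `A` is a stationary subset of `o`. -/
def isStat (A o : U) : B :=
  S.sub A o ⊓ ⨅ C, isClosedUnb S C o ⇨ ⨆ a, S.mem a A ⊓ S.mem a C

/-- `q` forces `a ∈ E`, where the `P`-name `E` is a set of pairs `(s, b)`, read `s ⊩ b ∈ E`:
the set of `t` with `t ≤ s`, `(s, a) ∈ E` for some `s` is dense below `q`. -/
def forcesMem (P r E q a : U) : B :=
  ⨅ q', S.mem q' P ⊓ S.rel r q' q ⇨
    ⨆ t, S.mem t P ⊓ S.rel r t q' ⊓ ⨆ s, S.rel E s a ⊓ S.mem s P ⊓ S.rel r t s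

/-- `q` forces that `E` is unbounded in the limit ordinal `d`. -/
def forcesUnb (P r E q d : U) : B :=
  ⨅ a, S.mem a d ⇨ ⨅ q', S.mem q' P ⊓ S.rel r q' q ⇨
    ⨆ t, S.mem t P ⊓ S.rel r t q' ⊓ ⨆ b, S.mem b d ⊓ S.mem a b ⊓ forcesMem S P r E t b

/-- `p` forces that `E ∩ o` is a closed unbounded subset of `o`. -/
def forcesClub (o P r E p : U) : B :=
  forcesUnb S P r E p o ⊓
    ⨅ d, S.mem d o ⊓ (⨆ a, S.mem a d) ⇨
      ⨅ q, S.mem q P ⊓ S.rel r q p ⊓ forcesUnb S P r E q d ⇨ forcesMem S P r E q d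

/-- `(P, r)` preserves stationary subsets of `o = ω₁`: if `A` is a stationary subset of `o` and `p`
forces that `E` is a closed unbounded subset of `o`, then some `q ≤ p` forces `d ∈ E` for some
`d ∈ A`. -/
def isSSP (o P r : U) : B :=
  ⨅ A, ⨅ E, ⨅ p, isStat S A o ⊓ S.mem p P ⊓ forcesClub S o P r E p ⇨
    ⨆ q, ⨆ d, S.mem q P ⊓ S.rel r q p ⊓ S.mem d A ⊓ forcesMem S P r E q d

/-! ## The axioms -/

/-- `PFA(ω₁)`: the forcing axiom for proper partial orders of size at most `ℵ₁`. -/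
def PFA1 : B :=
  ⨅ w, ⨅ o, ⨅ P, ⨅ r, isOm S w ⊓ S.isSucc o w ⊓ isPO S P r ⊓ S.leCard P o ⊓ isProper S P r ⇨
    FA S o P r

/-- `MM(ω₁)`: the forcing axiom for partial orders of size at most `ℵ₁` which preserve stationary
subsets of `ω₁`. -/
def MM1 : B :=
  ⨅ w, ⨅ o, ⨅ P, ⨅ r, isOm S w ⊓ S.isSucc o w ⊓ isPO S P r ⊓ S.leCard P o ⊓ isSSP S o P r ⇨
    FA S o P r

end Pool.Agent.Lib.MP_e6fef2_lc
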